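import Pool.Agent.helper4.NF.SpecB

/-!
# Project nf (MP_4467b5_nt): LB1, the first part of the lower bound
-/

set_option autoImplicit false

open Complex MeasureTheory

namespace Pool.Agent.NF

open Pool.Agent.helper84.DM Pool.Agent.helper78.ED Pool.Agent.DH Pool.Agent.ZD

/-- the sum over `W` at a point `log k`. -/
noncomputable def LB1_H (W : Finset ℝ) (v : ℝ → ℂ) (k : ℕ) : ℂ :=
  ∑ t ∈ W, v t * ex (t * Real.log k)

theorem LB1_count (A B : Finset ℕ) (l k : ℕ) (hA : ∀ a ∈ A, 1 ≤ a) (hB : ∀ b ∈ B, 1 ≤ b)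
    (hl : 1 ≤ l) :
    ((A ×ˢ B).filter (fun x => x.1 * x.2 * l = k)).card ≤ k.divisors.card := by
  refine Finset.card_le_card_of_injOn (fun x => x.1) ?_ ?_
  · intro x hx
    rw [Finset.mem_coe, Finset.mem_filter, Finset.mem_product] at hx
    obtain ⟨⟨h1, h2⟩, h3⟩ := hx
    have h4 := hA _ h1
    have h5 := hB _ h2
    rw [Finset.mem_coe, Nat.mem_divisors]
    refine ⟨⟨x.2 * l, by rw [← h3]; ring⟩, ?_⟩
    rw [← h3]
    positivity
  · intro x hx y hy hxy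
    rw [Finset.mem_coe, Finset.mem_filter, Finset.mem_product] at hx hy
    obtain ⟨⟨h1, h2⟩, h3⟩ := hx
    obtain ⟨⟨h1', h2'⟩, h3'⟩ := hy
    have h4 := hA _ h1
    simp only at hxy
    have h6 : x.1 * x.2 * l = x.1 * y.2 * l := by rw [h3, ← h3', hxy]
    have h7 : x.1 * x.2 = x.1 * y.2 := Nat.eq_of_mul_eq_mul_right (by omega) h6
    have h8 : x.2 = y.2 := Nat.eq_of_mul_eq_mul_left (by omega) h7
    exact Prod.ext hxy h8

theorem LB1_group (hB : BPH_stmt) (NP NE L l : ℕ) (D : ℝ) (h : ℕ → ℝ) (h0 : ∀ k, 0 ≤ h k)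
    (hNP : 1 ≤ NP) (hNE : 1 ≤ NE) (hL : 1 ≤ L)
    (hD : ∀ k : ℕ, 1 ≤ k → k ≤ 32 * (NP * NE * L) → d k ≤ D) (hl : l ∈ Finset.Ioc L (2 * L)) :
    ∑ x ∈ Finset.Ioc NP (4 * NP) ×ˢ Finset.Ioc NE (4 * NE), h (x.1 * x.2 * l) ≤
      D * ∑ k ∈ Finset.Icc 1 ⌊64 * ((NP : ℝ) * NE * L)⌋₊, Phi ((k : ℝ) / (NP * NE * L)) * h k := by
  obtain ⟨p1, p2, -, -⟩ := hB
  rw [Finset.mem_Ioc] at hl
  have hD0 : 0 ≤ D := by
    have h1 := hD 1 le_rfl (by
      have : 0 < NP * NE * L := by positivity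
      omega)
    have h2 : d 1 = 1 := by simp [d]
    linarith
  set X : ℝ := (NP : ℝ) * NE * L with hX
  have hX0 : 0 < X := by
    have h1 : (0 : ℝ) < NP := by exact_mod_cast hNP
    have h2 : (0 : ℝ) < NE := by exact_mod_cast hNE
    have h3 : (0 : ℝ) < L := by exact_mod_cast hL
    positivity
  have hb : ∀ x ∈ Finset.Ioc NP (4 * NP) ×ˢ Finset.Ioc NE (4 * NE),
      NP * NE * L ≤ x.1 * x.2 * l ∧ x.1 * x.2 * l ≤ 32 * (NP * NE * L) := by
    intro x hx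
    rw [Finset.mem_product, Finset.mem_Ioc, Finset.mem_Ioc] at hx
    obtain ⟨⟨h1, h2⟩, h3, h4⟩ := hx
    refine ⟨Nat.mul_le_mul (Nat.mul_le_mul h1.le h3.le) hl.1.le, ?_⟩
    calc x.1 * x.2 * l ≤ (4 * NP) * (4 * NE) * (2 * L) :=
          Nat.mul_le_mul (Nat.mul_le_mul h2 h4) hl.2
      _ = 32 * (NP * NE * L) := by ring
  have hmap : ∀ x ∈ Finset.Ioc NP (4 * NP) ×ˢ Finset.Ioc NE (4 * NE),
      x.1 * x.2 * l ∈ Finset.Icc 1 ⌊64 * X⌋₊ := by
    intro x hx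
    obtain ⟨h1, h2⟩ := hb x hx
    rw [Finset.mem_Icc]
    have h3 : 0 < NP * NE * L := by positivity
    refine ⟨by omega, Nat.le_floor ?_⟩
    have h4 : ((x.1 * x.2 * l : ℕ) : ℝ) ≤ ((32 * (NP * NE * L) : ℕ) : ℝ) := by exact_mod_cast h2
    have h5 : ((32 * (NP * NE * L) : ℕ) : ℝ) = 32 * X := by
      rw [hX]; push_cast; ring
    rw [h5] at h4
    linarith
  rw [← Finset.sum_fiberwise_of_maps_to hmap, Finset.mul_sum]
  refine Finset.sum_le_sum fun k hk => ?_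
  have h6 : ∑ x ∈ (Finset.Ioc NP (4 * NP) ×ˢ Finset.Ioc NE (4 * NE)).filter
      (fun x => x.1 * x.2 * l = k), h (x.1 * x.2 * l) =
      (((Finset.Ioc NP (4 * NP) ×ˢ Finset.Ioc NE (4 * NE)).filter
        (fun x => x.1 * x.2 * l = k)).card : ℝ) * h k := by
    rw [Finset.sum_congr rfl (fun x hx => by rw [(Finset.mem_filter.1 hx).2]), Finset.sum_const,
      nsmul_eq_mul]
  rw [h6]
  by_cases hne : ((Finset.Ioc NP (4 * NP) ×ˢ Finset.Ioc NE (4 * NE)).filter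
        (fun x => x.1 * x.2 * l = k)).Nonempty
  · obtain ⟨x, hx⟩ := hne
    rw [Finset.mem_filter] at hx
    obtain ⟨h7, h8⟩ := hb x hx.1
    rw [hx.2] at h7 h8
    have h9 : Phi ((k : ℝ) / X) = 1 := by
      have h10 : ((NP * NE * L : ℕ) : ℝ) ≤ (k : ℝ) := by exact_mod_cast h7
      have h11 : (k : ℝ) ≤ ((32 * (NP * NE * L) : ℕ) : ℝ) := by exact_mod_cast h8
      apply p2
      · rw [le_div_iff₀ hX0, one_mul, hX]
        push_cast at h10
        exact h10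
      · rw [div_le_iff₀ hX0, hX]
        push_cast at h11
        exact h11
    rw [h9, one_mul]
    refine mul_le_mul_of_nonneg_right ?_ (h0 k)
    refine le_trans ?_ (hD k (Finset.mem_Icc.1 hk).1 h8)
    have h12 := LB1_count (Finset.Ioc NP (4 * NP)) (Finset.Ioc NE (4 * NE)) l k
      (fun a ha => by rw [Finset.mem_Ioc] at ha; omega)
      (fun a ha => by rw [Finset.mem_Ioc] at ha; omega) (by omega)
    rw [d]
    exact_mod_cast h12
  · rw [Finset.not_nonempty_iff_eq_empty] at hne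
    rw [hne, Finset.card_empty, Nat.cast_zero, zero_mul]
    exact mul_nonneg hD0 (mul_nonneg (p1 _).1 (h0 k))

theorem LB1_exp (hE : EXA_stmt) (W : Finset ℝ) (v : ℝ → ℂ) (X : ℝ) :
    ((∑ k ∈ Finset.Icc 1 ⌊64 * X⌋₊, Phi ((k : ℝ) / X) * ‖LB1_H W v k‖ ^ 2 : ℝ) : ℂ) =
      ∑ τ ∈ W, (starRingEnd ℂ) (v τ) * ∑ t ∈ W, BX X (τ - t) * v t := by
  obtain ⟨e1, e2, e3, e4, e5, e6, e7, e8, e9⟩ := hE
  have h1 : ∀ k : ℕ, ((‖LB1_H W v k‖ ^ 2 : ℝ) : ℂ) = ∑ τ ∈ W, ∑ t ∈ W,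
      (starRingEnd ℂ) (v τ) * v t * ex (-((τ - t) * Real.log k)) := by
    intro k
    rw [Complex.ofReal_pow, ← Complex.conj_mul', LB1_H, map_sum, Finset.sum_mul_sum]
    refine Finset.sum_congr rfl fun τ _ => Finset.sum_congr rfl fun t _ => ?_
    rw [map_mul, e3]
    have h2 : ex (-((τ - t) * Real.log k)) = ex (-(τ * Real.log k)) * ex (t * Real.log k) := by
      rw [← e2]
      congr 1
      ring
    rw [h2]
    ring
  rw [Complex.ofReal_sum]
  simp_rw [Complex.ofReal_mul, h1, Finset.mul_sum]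
  rw [Finset.sum_comm]
  refine Finset.sum_congr rfl fun τ _ => ?_
  rw [Finset.sum_comm]
  refine Finset.sum_congr rfl fun t _ => ?_
  rw [e7, Finset.sum_mul, Finset.mul_sum]
  refine Finset.sum_congr rfl fun k _ => ?_
  ring

theorem LB1_expand (hE : EXA_stmt) (W : Finset ℝ) (NP NE : ℕ) (bP bE : ℕ → ℂ) :
    ((∑ t ∈ W, ‖PP NP bP t * PP NE bE t‖ ^ 2 : ℝ) : ℂ) =
      ∑ x ∈ Finset.Ioc NP (4 * NP) ×ˢ Finset.Ioc NE (4 * NE),
        (starRingEnd ℂ) (bP x.1) * (starRingEnd ℂ) (bE x.2) *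
          ∑ t ∈ W, (PP NP bP t * PP NE bE t) * (ex (t * Real.log x.1) * ex (t * Real.log x.2)) := by
  obtain ⟨e1, e2, e3, e4, e5, e6, e7, e8, e9⟩ := hE
  have h1 : ∀ (N : ℕ) (b : ℕ → ℂ) (t : ℝ), (starRingEnd ℂ) (PP N b t) =
      ∑ n ∈ Finset.Ioc N (4 * N), (starRingEnd ℂ) (b n) * ex (t * Real.log n) := by
    intro N b t
    rw [PP, e6 _ _ _ (by simp), map_sum]
    refine Finset.sum_congr rfl fun n _ => ?_
    rw [map_mul, e3, neg_neg]
  rw [Complex.ofReal_sum]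
  simp_rw [Finset.mul_sum]
  rw [Finset.sum_comm]
  refine Finset.sum_congr rfl fun t _ => ?_
  rw [Complex.ofReal_pow, ← Complex.mul_conj', map_mul, h1, h1, Finset.sum_mul_sum,
    ← Finset.sum_product', Finset.mul_sum]
  refine Finset.sum_congr rfl fun x _ => ?_
  ring

theorem LB1 (hE : EXA_stmt) (hB : BPH_stmt) : LB1_stmt := by
  intro W NP NE L bP bE D hNP hNE hL hbP hbE hD l hl
  have hE' := hE
  obtain ⟨e1, e2, e3, e4, e5, e6, e7, e8, e9⟩ := hE'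
  have hl' := Finset.mem_Ioc.1 hl
  set G : ℝ := ∑ t ∈ W, ‖PP NP bP t * PP NE bE t‖ ^ 2 with hG
  set v : ℝ → ℂ := fun t => PP NP bP t * PP NE bE t * ex (-(t * Real.log l)) with hv
  set X : ℝ := (NP : ℝ) * NE * L with hX
  have hNP1 : (1 : ℝ) ≤ NP := by exact_mod_cast hNP
  have hNE1 : (1 : ℝ) ≤ NE := by exact_mod_cast hNE
  have hL1 : (1 : ℝ) ≤ L := by exact_mod_cast hL
  have hX1 : 1 ≤ X := by
    rw [hX]
    exact one_le_mul_of_one_le_of_one_le (one_le_mul_of_one_le_of_one_le hNP1 hNE1) hL1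
  have hD0 : 0 ≤ D := by
    have h1 := hD 1 le_rfl (by
      have : 0 < NP * NE * L := by positivity
      omega)
    have h2 : d 1 = 1 := by simp [d]
    linarith
  have hG0 : 0 ≤ G := Finset.sum_nonneg fun t _ => by positivity
  set AB := Finset.Ioc NP (4 * NP) ×ˢ Finset.Ioc NE (4 * NE) with hAB
  have hcard : (AB.card : ℝ) = 9 * (NP * NE) := by
    rw [hAB, Finset.card_product, Nat.card_Ioc, Nat.card_Ioc]
    have h1 : 4 * NP - NP = 3 * NP := by omega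
    have h2 : 4 * NE - NE = 3 * NE := by omega
    rw [h1, h2]
    push_cast
    ring
  -- first step
  have h1 : G ≤ ∑ x ∈ AB, ‖LB1_H W v (x.1 * x.2 * l)‖ := by
    have h2 : G = ‖((G : ℝ) : ℂ)‖ := by
      rw [Complex.norm_real, Real.norm_of_nonneg hG0]
    rw [h2, hG, LB1_expand hE]
    refine (norm_sum_le _ _).trans (Finset.sum_le_sum fun x hx => ?_)
    rw [Finset.mem_product] at hx
    have h3 : ∑ t ∈ W, (PP NP bP t * PP NE bE t) * (ex (t * Real.log x.1) * ex (t * Real.log x.2)) =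
        LB1_H W v (x.1 * x.2 * l) := by
      rw [LB1_H]
      refine Finset.sum_congr rfl fun t _ => ?_
      have hx1 := Finset.mem_Ioc.1 hx.1
      have hx2 := Finset.mem_Ioc.1 hx.2
      have h4 : Real.log ((x.1 * x.2 * l : ℕ) : ℝ) = Real.log x.1 + Real.log x.2 + Real.log l := by
        have h5 : ((x.1 : ℕ) : ℝ) ≠ 0 := by
          have : x.1 ≠ 0 := by omega
          exact_mod_cast this
        have h6 : ((x.2 : ℕ) : ℝ) ≠ 0 := by
          have : x.2 ≠ 0 := by omega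
          exact_mod_cast this
        have h7 : ((l : ℕ) : ℝ) ≠ 0 := by
          have : l ≠ 0 := by omega
          exact_mod_cast this
        push_cast
        rw [Real.log_mul (mul_ne_zero h5 h6) h7, Real.log_mul h5 h6]
      rw [h4, hv]
      have h8 : ex (t * Real.log x.1) * ex (t * Real.log x.2) =
          ex (-(t * Real.log l)) * ex (t * (Real.log x.1 + Real.log x.2 + Real.log l)) := by
        rw [← e2, ← e2]
        congr 1
        ring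
      rw [h8]
      ring
    rw [norm_mul, norm_mul, RCLike.norm_conj, RCLike.norm_conj, h3]
    have h9 := hbP _ hx.1
    have h10 := hbE _ hx.2
    have h11 : ‖bP x.1‖ * ‖bE x.2‖ ≤ 1 := mul_le_one₀ h9 (norm_nonneg _) h10
    exact mul_le_of_le_one_left (norm_nonneg _) h11
  have h2 : G ^ 2 ≤ 9 * (NP * NE) * ∑ x ∈ AB, ‖LB1_H W v (x.1 * x.2 * l)‖ ^ 2 := by
    calc G ^ 2 ≤ (∑ x ∈ AB, ‖LB1_H W v (x.1 * x.2 * l)‖) ^ 2 := pow_le_pow_left₀ hG0 h1 2
      _ ≤ AB.card * ∑ x ∈ AB, ‖LB1_H W v (x.1 * x.2 * l)‖ ^ 2 := sq_sum_le_card_mul_sum_sq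
      _ = _ := by rw [hcard]
  have h3 := LB1_group hB NP NE L l D (fun k => ‖LB1_H W v k‖ ^ 2) (fun k => by positivity)
    hNP hNE hL hD hl
  have h4 : ∑ k ∈ Finset.Icc 1 ⌊64 * X⌋₊, Phi ((k : ℝ) / X) * ‖LB1_H W v k‖ ^ 2 ≤
      mu X * G + ‖∑ τ ∈ W, (starRingEnd ℂ) (v τ) *
        ∑ t ∈ W, if t = τ then 0 else BX X (τ - t) * v t‖ := by
    have h5 := LB1_exp hE W v X
    have h6 : ∑ τ ∈ W, (starRingEnd ℂ) (v τ) * ∑ t ∈ W, BX X (τ - t) * v t =
        ((mu X * G : ℝ) : ℂ) + ∑ τ ∈ W, (starRingEnd ℂ) (v τ) *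
        ∑ t ∈ W, if t = τ then 0 else BX X (τ - t) * v t := by
      have h7 : ∀ τ ∈ W, ∑ t ∈ W, BX X (τ - t) * v t = (mu X : ℂ) * v τ +
          ∑ t ∈ W, if t = τ then 0 else BX X (τ - t) * v t := by
        intro τ hτ
        have h8 : ∑ t ∈ W, BX X (τ - t) * v t = ∑ t ∈ W,
            ((if t = τ then (mu X : ℂ) * v τ else 0) +
              (if t = τ then 0 else BX X (τ - t) * v t)) := by
          refine Finset.sum_congr rfl fun t _ => ?_
          by_cases h : t = τ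
          · rw [if_pos h, if_pos h, h, sub_self, e8, add_zero]
          · rw [if_neg h, if_neg h, zero_add]
        rw [h8, Finset.sum_add_distrib, Finset.sum_ite_eq' W τ, if_pos hτ]
      rw [Finset.sum_congr rfl (fun τ hτ => by rw [h7 τ hτ])]
      simp_rw [mul_add]
      rw [Finset.sum_add_distrib]
      congr 1
      have h9 : ∀ τ, (starRingEnd ℂ) (v τ) * ((mu X : ℂ) * v τ) =
          ((mu X * ‖PP NP bP τ * PP NE bE τ‖ ^ 2 : ℝ) : ℂ) := by
        intro τ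
        have h10 : ‖v τ‖ = ‖PP NP bP τ * PP NE bE τ‖ := by
          rw [hv]
          simp only
          rw [norm_mul, e1, mul_one]
        rw [← h10]
        push_cast
        rw [← Complex.conj_mul']
        ring
      simp_rw [h9]
      rw [← Complex.ofReal_sum, hG, Finset.mul_sum]
    have h11 : 0 ≤ ∑ k ∈ Finset.Icc 1 ⌊64 * X⌋₊, Phi ((k : ℝ) / X) * ‖LB1_H W v k‖ ^ 2 :=
      Finset.sum_nonneg fun k _ => mul_nonneg (hB.1 _).1 (by positivity)
    have h12 : ∑ k ∈ Finset.Icc 1 ⌊64 * X⌋₊, Phi ((k : ℝ) / X) * ‖LB1_H W v k‖ ^ 2 =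
        ‖((∑ k ∈ Finset.Icc 1 ⌊64 * X⌋₊, Phi ((k : ℝ) / X) * ‖LB1_H W v k‖ ^ 2 : ℝ) : ℂ)‖ := by
      rw [Complex.norm_real, Real.norm_of_nonneg h11]
    rw [h12, h5, h6]
    refine (norm_add_le _ _).trans ?_
    rw [Complex.norm_real, Real.norm_of_nonneg (mul_nonneg (e9 X hX1).1 hG0)]
  have h5 : (0 : ℝ) ≤ 9 * (NP * NE) := by positivity
  calc G ^ 2 ≤ 9 * (NP * NE) * ∑ x ∈ AB, ‖LB1_H W v (x.1 * x.2 * l)‖ ^ 2 := h2
    _ ≤ 9 * (NP * NE) * (D * ∑ k ∈ Finset.Icc 1 ⌊64 * X⌋₊,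
        Phi ((k : ℝ) / X) * ‖LB1_H W v k‖ ^ 2) := mul_le_mul_of_nonneg_left h3 h5
    _ ≤ 9 * (NP * NE) * (D * (mu X * G + ‖∑ τ ∈ W, (starRingEnd ℂ) (v τ) *
        ∑ t ∈ W, if t = τ then 0 else BX X (τ - t) * v t‖)) :=
        mul_le_mul_of_nonneg_left (mul_le_mul_of_nonneg_left h4 hD0) h5
    _ = 9 * (NP * NE) * D * (mu X * G + ‖∑ τ ∈ W, (starRingEnd ℂ) (v τ) *
        ∑ t ∈ W, if t = τ then 0 else BX X (τ - t) * v t‖) := by ring

end Pool.Agent.NF
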